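import Pool.Agent.Helper35.HC.StE

set_option autoImplicit false

namespace Pool.Agent.Helper9.HC

open Helper35.HC Helper35.HSF Helper35.MS Helper35.PI Helper35.PI2 Helper32.CL
open scoped ContDiff Manifold Topology ENNReal BigOperators
open MeasureTheory Set Filter

/-- HC module SEB: the section of `π`. -/
theorem hSEB : StSEB := by
  intro n hn M _ _ _ K π q₀ q₁ hq₀ hK g hg hgs
  set p₀ : EE (n + 1) := (π q₀ : EE (n + 1)) with hp₀
  have hp1 : ‖p₀‖ = 1 := by
    have := (π q₀).2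
    rwa [mem_sphere_zero_iff_norm] at this
  have hpp : (inner ℝ p₀ p₀ : ℝ) = 1 := by
    rw [real_inner_self_eq_norm_sq, hp1]
    norm_num
  set A : Set (EE (n + 1)) := {ξ : EE (n + 1) | ‖ξ‖ = 1 ∧ (inner ℝ ξ p₀ : ℝ) = 0} with hA
  -- a point of A
  obtain ⟨ξ₀, hξ₀⟩ : ∃ ξ₀, ξ₀ ∈ A := by
    have hne : p₀ ≠ 0 := by
      intro h
      rw [h, norm_zero] at hp1
      exact zero_ne_one hp1
    have : Fact (Module.finrank ℝ (EE (n + 1)) = n + 1) := ⟨by simp [EE]⟩
    have hfr : Module.finrank ℝ (Submodule.span ℝ {p₀})ᗮ = n :=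
      Submodule.finrank_orthogonal_span_singleton hne
    have hnt : Nontrivial (Submodule.span ℝ {p₀})ᗮ := by
      apply Module.nontrivial_of_finrank_pos (R := ℝ)
      omega
    obtain ⟨v, hv⟩ := exists_ne (0 : (Submodule.span ℝ {p₀})ᗮ)
    have hv0 : (v : EE (n + 1)) ≠ 0 := fun h => hv (Subtype.ext h)
    have hvn : ‖(v : EE (n + 1))‖ ≠ 0 := norm_ne_zero_iff.2 hv0
    have hvp : (inner ℝ (v : EE (n + 1)) p₀ : ℝ) = 0 := by
      have h1 := (Submodule.mem_orthogonal_singleton_iff_inner_right (𝕜 := ℝ)).1 v.2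
      rw [real_inner_comm]
      exact h1
    refine ⟨(‖(v : EE (n + 1))‖)⁻¹ • (v : EE (n + 1)), ?_, ?_⟩
    · rw [norm_smul, norm_inv, norm_norm, inv_mul_cancel₀ hvn]
    · rw [real_inner_smul_left, hvp, mul_zero]
  have hQn : ∀ (s : ℝ) (ξ : EE (n + 1)), ξ ∈ A → ‖Real.cos s • p₀ + Real.sin s • ξ‖ = 1 := by
    intro s ξ hξ
    have h1 : ‖Real.cos s • p₀ + Real.sin s • ξ‖ ^ 2 = 1 := by
      rw [norm_add_sq_real, norm_smul, norm_smul, real_inner_smul_left, real_inner_smul_right,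
        real_inner_comm, hξ.2, hp1, hξ.1]
      simp only [Real.norm_eq_abs, mul_one, mul_zero, add_zero, sq_abs]
      exact Real.cos_sq_add_sin_sq s
    have h2 : 0 ≤ ‖Real.cos s • p₀ + Real.sin s • ξ‖ := norm_nonneg _
    nlinarith
  have hAc : IsCompact A := by
    have h1 : IsClosed A := by
      have h2 : A = (fun ξ : EE (n + 1) => ‖ξ‖) ⁻¹' {1} ∩
          (fun ξ : EE (n + 1) => (inner ℝ ξ p₀ : ℝ)) ⁻¹' {0} := by
        ext ξ
        rfl
      rw [h2]
      refine IsClosed.inter (isClosed_singleton.preimage continuous_norm) ?_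
      exact isClosed_singleton.preimage (continuous_id.inner continuous_const)
    refine (isCompact_sphere (0 : EE (n + 1)) 1).of_isClosed_subset h1 ?_
    intro ξ hξ
    rw [mem_sphere_zero_iff_norm]
    exact hξ.1
  set D : Set (ℝ × EE (n + 1)) := Icc 0 Real.pi ×ˢ A with hD
  have hDc : IsCompact D := isCompact_Icc.prod hAc
  have : CompactSpace D := isCompact_iff_compactSpace.1 hDc
  let Q : D → Metric.sphere (0 : EE (n + 1)) 1 := fun z =>
    ⟨Real.cos z.1.1 • p₀ + Real.sin z.1.1 • z.1.2, by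
      rw [mem_sphere_zero_iff_norm]
      exact hQn _ _ z.2.2⟩
  have hQc : Continuous Q := by
    refine Continuous.subtype_mk ?_ _
    have h1 : Continuous (fun z : D => z.1.1) := continuous_fst.comp continuous_subtype_val
    have h2 : Continuous (fun z : D => z.1.2) := continuous_snd.comp continuous_subtype_val
    exact ((Real.continuous_cos.comp h1).smul continuous_const).add
      ((Real.continuous_sin.comp h1).smul h2)
  have hQs : Function.Surjective Q := by
    intro x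
    have hx1 : ‖(x : EE (n + 1))‖ = 1 := by
      have := x.2
      rwa [mem_sphere_zero_iff_norm] at this
    set c : ℝ := inner ℝ (x : EE (n + 1)) p₀ with hc
    have hcabs : |c| ≤ 1 := by
      have := abs_real_inner_le_norm (x : EE (n + 1)) p₀
      rwa [hx1, hp1, mul_one] at this
    have hc1 := abs_le.1 hcabs
    have hcos : Real.cos (Real.arccos c) = c := Real.cos_arccos hc1.1 hc1.2
    have hsin : Real.sin (Real.arccos c) = Real.sqrt (1 - c ^ 2) := Real.sin_arccos c
    set w : EE (n + 1) := (x : EE (n + 1)) - c • p₀ with hw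
    have hwn : ‖w‖ ^ 2 = 1 - c ^ 2 := by
      rw [hw, norm_sub_sq_real, norm_smul, real_inner_smul_right, ← hc, hx1, hp1]
      simp only [Real.norm_eq_abs, mul_one, sq_abs]
      ring
    have hws : ‖w‖ = Real.sqrt (1 - c ^ 2) := by
      rw [← hwn, Real.sqrt_sq (norm_nonneg _)]
    have hwp : (inner ℝ w p₀ : ℝ) = 0 := by
      rw [hw, inner_sub_left, real_inner_smul_left, hpp, ← hc]
      ring
    by_cases hw0 : w = 0
    · refine ⟨⟨(Real.arccos c, ξ₀), ⟨Real.arccos_nonneg c, Real.arccos_le_pi c⟩, hξ₀⟩, ?_⟩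
      apply Subtype.ext
      change Real.cos (Real.arccos c) • p₀ + Real.sin (Real.arccos c) • ξ₀ = (x : EE (n + 1))
      rw [hcos, hsin, ← hws, hw0, norm_zero, zero_smul, add_zero]
      rw [hw, sub_eq_zero] at hw0
      exact hw0.symm
    · have hwne : ‖w‖ ≠ 0 := norm_ne_zero_iff.2 hw0
      refine ⟨⟨(Real.arccos c, (‖w‖)⁻¹ • w), ⟨Real.arccos_nonneg c, Real.arccos_le_pi c⟩, ?_, ?_⟩,
        ?_⟩
      · change ‖(‖w‖)⁻¹ • w‖ = 1
        rw [norm_smul, norm_inv, norm_norm, inv_mul_cancel₀ hwne]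
      · change (inner ℝ ((‖w‖)⁻¹ • w) p₀ : ℝ) = 0
        rw [real_inner_smul_left, hwp, mul_zero]
      · apply Subtype.ext
        change Real.cos (Real.arccos c) • p₀ + Real.sin (Real.arccos c) • ((‖w‖)⁻¹ • w) =
          (x : EE (n + 1))
        rw [hcos, hsin, ← hws, smul_smul, mul_inv_cancel₀ hwne, one_smul, hw]
        abel
  have hQm : Topology.IsQuotientMap Q := hQc.isClosedMap.isQuotientMap hQc hQs
  let g' : D → M := fun z => g z.1
  have hg'c : Continuous g' := continuousOn_iff_continuous_restrict.1 hg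
  have hfac : ∀ z z' : D, Q z = Q z' → g' z = g' z' := by
    rintro ⟨⟨s, ξ⟩, hs, hξ⟩ ⟨⟨s', ξ'⟩, hs', hξ'⟩ h
    have h1 : Real.cos s • p₀ + Real.sin s • ξ = Real.cos s' • p₀ + Real.sin s' • ξ' :=
      congrArg Subtype.val h
    have h2 := congrArg (fun v : EE (n + 1) => (inner ℝ v p₀ : ℝ)) h1
    simp only [inner_add_left, real_inner_smul_left, hpp, hξ.2, hξ'.2, mul_one, mul_zero,
      add_zero] at h2
    have h3 : s = s' := Real.injOn_cos hs hs' h2
    subst h3
    have h4 : Real.sin s • ξ = Real.sin s • ξ' := add_left_cancel h1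
    by_cases h5 : Real.sin s = 0
    · have h6 : s = 0 ∨ s = Real.pi := by
        rcases eq_or_lt_of_le hs.1 with h7 | h7
        · exact Or.inl h7.symm
        · rcases eq_or_lt_of_le hs.2 with h8 | h8
          · exact Or.inr h8
          · exact absurd h5 (Real.sin_pos_of_pos_of_lt_pi h7 h8).ne'
      change g (s, ξ) = g (s, ξ')
      rcases h6 with h6 | h6
      · rw [h6, (hgs ξ hξ.1 hξ.2).1, (hgs ξ' hξ'.1 hξ'.2).1]
      · rw [h6, (hgs ξ hξ.1 hξ.2).2.1, (hgs ξ' hξ'.1 hξ'.2).2.1]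
    · have h6 : ξ = ξ' := smul_right_injective _ h5 h4
      subst h6
      rfl
  let σ : Metric.sphere (0 : EE (n + 1)) 1 → M := fun x => g' (Function.surjInv hQs x)
  have hσQ : ∀ z, σ (Q z) = g' z := fun z => hfac _ _ (Function.surjInv_eq hQs (Q z))
  have hσc : Continuous σ := by
    rw [hQm.continuous_iff]
    have : σ ∘ Q = g' := funext hσQ
    rw [this]
    exact hg'c
  have hπσ : ∀ x, π (σ x) = x := by
    intro x
    obtain ⟨⟨⟨s, ξ⟩, hs, hξ⟩, rfl⟩ := hQs x
    rw [hσQ]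
    apply Subtype.ext
    exact ((hgs ξ hξ.1 hξ.2).2.2 s hs).2
  have hσK : ∀ x, σ x ∈ K := by
    intro x
    obtain ⟨⟨⟨s, ξ⟩, hs, hξ⟩, rfl⟩ := hQs x
    rw [hσQ]
    exact ((hgs ξ hξ.1 hξ.2).2.2 s hs).1
  have hopen : IsOpen (Set.range σ) := by
    rw [isOpen_iff_mem_nhds]
    rintro _ ⟨x, rfl⟩
    obtain ⟨e, he, heq⟩ := hK (σ x) (hσK x)
    have hV : IsOpen (σ ⁻¹' e.source) := e.open_source.preimage hσc
    have h1 : ∀ y ∈ σ ⁻¹' e.source, y ∈ e.target ∧ e.symm y = σ y := by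
      intro y hy
      have h2 : e (σ y) = y := by
        rw [← heq hy]
        exact hπσ y
      constructor
      · rw [← h2]
        exact e.map_source hy
      · rw [← e.left_inv hy, h2]
    have h2 : IsOpen (e.symm '' (σ ⁻¹' e.source)) :=
      e.symm.isOpen_image_of_subset_source hV (fun y hy => (h1 y hy).1)
    have h3 : σ x ∈ e.symm '' (σ ⁻¹' e.source) := ⟨x, he, (h1 x he).2⟩
    refine Filter.mem_of_superset (h2.mem_nhds h3) ?_
    rintro _ ⟨y, hy, rfl⟩
    exact ⟨y, (h1 y hy).2.symm⟩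
  have hclosed : IsClosed (Set.range σ) := (isCompact_range hσc).isClosed
  have huniv : Set.range σ = Set.univ :=
    IsClopen.eq_univ ⟨hclosed, hopen⟩ ⟨σ (π q₀), ⟨_, rfl⟩⟩
  refine ⟨?_, ?_, ?_⟩
  · rw [Set.eq_univ_iff_forall]
    intro q
    have hq : q ∈ Set.range σ := by rw [huniv]; trivial
    obtain ⟨x, rfl⟩ := hq
    exact hσK x
  · intro q q' h
    have hq : q ∈ Set.range σ := by rw [huniv]; trivial
    have hq' : q' ∈ Set.range σ := by rw [huniv]; trivial
    obtain ⟨x, rfl⟩ := hq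
    obtain ⟨x', rfl⟩ := hq'
    rw [hπσ, hπσ] at h
    rw [h]
  · intro x
    exact ⟨σ x, hπσ x⟩

end Pool.Agent.Helper9.HC
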